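import Pool.Agent.H500.ME.Stm
import Pool.Graph.R_seed8.H921R2.TatePole.Base

set_option autoImplicit false
set_option linter.unusedSectionVars false

/-!
# Deuring's reduction (part A4 of project ME), 3: mean values
-/

namespace Pool.Agent.H800.ME.DEU

open NumberField IsDedekindDomain Filter Topology
open Pool.Agent.H500.ME (pl MVn MVe MV)
open Pool.Agent.H500.SV (Above)
open Pool.Agent.H921R2.TatePole (nm below nm_eq card_above nm_summable)

section
variable {K : Type} [Field K] [NumberField K]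

theorem mem_pl {x : ℕ} {v : HeightOneSpectrum (𝓞 K)} :
    v ∈ pl K x ↔ Ideal.absNorm v.asIdeal ≤ x := by
  rw [pl, Set.Finite.mem_toFinset]
  rfl

theorem one_lt_N (v : HeightOneSpectrum (𝓞 K)) : 1 < Ideal.absNorm v.asIdeal := by
  have h0 : Ideal.absNorm v.asIdeal ≠ 0 := fun h => v.ne_bot (Ideal.absNorm_eq_zero_iff.1 h)
  have h1 : Ideal.absNorm v.asIdeal ≠ 1 := fun h =>
    v.isPrime.ne_top (Ideal.absNorm_eq_one_iff.1 h)
  omega

theorem smF {F : HeightOneSpectrum (𝓞 K) → ℂ} (hF : ∃ B : ℝ, ∀ v, ‖F v‖ ≤ B) {s : ℝ}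
    (hs : 1 < s) : Summable fun v : HeightOneSpectrum (𝓞 K) =>
      F v * (((Ideal.absNorm v.asIdeal : ℝ) ^ (-s) : ℝ) : ℂ) := by
  obtain ⟨B, hB⟩ := hF
  refine Summable.of_norm_bounded ((nm_summable (K := K) hs).mul_left B) fun v => ?_
  have h0 : (0 : ℝ) ≤ (Ideal.absNorm v.asIdeal : ℝ) ^ (-s) := by positivity
  rw [norm_mul, Complex.norm_real, Real.norm_of_nonneg h0]
  exact mul_le_mul_of_nonneg_right (hB v) h0

theorem mv_add {F G : HeightOneSpectrum (𝓞 K) → ℂ} {r s : ℂ} (hF : MV F r) (hG : MV G s) :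
    MV (fun v => F v + G v) (r + s) := by
  refine ⟨?_, ?_, ?_⟩
  · obtain ⟨B, hB⟩ := hF.bdd
    obtain ⟨C, hC⟩ := hG.bdd
    exact ⟨B + C, fun v => (norm_add_le _ _).trans (add_le_add (hB v) (hC v))⟩
  · have h := Tendsto.add hF.nat hG.nat
    refine h.congr fun x => ?_
    rw [Finset.sum_add_distrib, add_div]
  · obtain ⟨c, hc⟩ := hF.edge
    obtain ⟨d, hd⟩ := hG.edge
    refine ⟨c + d, (hc.add hd).congr' ?_⟩
    filter_upwards [self_mem_nhdsWithin] with x hx
    have h1 := (smF hF.bdd (Set.mem_Ioi.1 hx)).tsum_add (smF hG.bdd (Set.mem_Ioi.1 hx))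
    have h2 : (fun v : HeightOneSpectrum (𝓞 K) =>
        (F v + G v) * (((Ideal.absNorm v.asIdeal : ℝ) ^ (-x) : ℝ) : ℂ)) = fun v =>
        F v * (((Ideal.absNorm v.asIdeal : ℝ) ^ (-x) : ℝ) : ℂ) +
        G v * (((Ideal.absNorm v.asIdeal : ℝ) ^ (-x) : ℝ) : ℂ) := by
      funext v
      ring
    rw [h2, h1]
    ring

theorem mv_mul {F : HeightOneSpectrum (𝓞 K) → ℂ} {r : ℂ} (a : ℂ) (hF : MV F r) :
    MV (fun v => a * F v) (a * r) := by
  refine ⟨?_, ?_, ?_⟩
  · obtain ⟨B, hB⟩ := hF.bdd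
    refine ⟨‖a‖ * B, fun v => ?_⟩
    rw [norm_mul]
    exact mul_le_mul_of_nonneg_left (hB v) (norm_nonneg a)
  · have h := hF.nat.const_mul a
    refine h.congr fun x => ?_
    rw [← Finset.mul_sum, mul_div_assoc]
  · obtain ⟨c, hc⟩ := hF.edge
    refine ⟨a * c, (hc.const_mul a).congr fun x => ?_⟩
    rw [mul_add, ← tsum_mul_left, mul_assoc]
    congr 1
    exact tsum_congr fun v => by ring

/-- negligible functions -/
theorem negl {F : HeightOneSpectrum (𝓞 K) → ℂ} (hF : ∃ B : ℝ, ∀ v, ‖F v‖ ≤ B)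
    (hs : Summable fun v : HeightOneSpectrum (𝓞 K) =>
      ‖F v‖ * (Ideal.absNorm v.asIdeal : ℝ) ^ (-1 : ℝ)) (hn : MVn F 0) : MV F 0 := by
  refine ⟨hF, hn, ∑' v : HeightOneSpectrum (𝓞 K),
    F v * (((Ideal.absNorm v.asIdeal : ℝ) ^ (-1 : ℝ) : ℝ) : ℂ), ?_⟩
  simp only [zero_mul, add_zero]
  refine tendsto_tsum_of_dominated_convergence hs (fun v => ?_) ?_
  · refine Tendsto.const_mul _ ?_
    have h0 : (Ideal.absNorm v.asIdeal : ℝ) ≠ 0 := by
      have := one_lt_N v
      positivity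
    have h1 : Continuous fun s : ℝ => (((Ideal.absNorm v.asIdeal : ℝ) ^ (-s) : ℝ) : ℂ) :=
      Complex.continuous_ofReal.comp ((Real.continuous_const_rpow h0).comp continuous_neg)
    exact h1.continuousAt.tendsto.mono_left nhdsWithin_le_nhds
  · filter_upwards [self_mem_nhdsWithin] with s hs v
    have h0 : (0 : ℝ) ≤ (Ideal.absNorm v.asIdeal : ℝ) ^ (-s) := by positivity
    rw [norm_mul, Complex.norm_real, Real.norm_of_nonneg h0]
    refine mul_le_mul_of_nonneg_left ?_ (norm_nonneg _)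
    have h1 : (1 : ℝ) ≤ Ideal.absNorm v.asIdeal := by exact_mod_cast (one_lt_N v).le
    have h2 : (1 : ℝ) < s := hs
    exact Real.rpow_le_rpow_of_exponent_le h1 (by linarith)

/-- a bound for the sums by `C √x` is enough for the mean value -/
theorem mvn_zero {F : HeightOneSpectrum (𝓞 K) → ℂ} (C : ℝ)
    (h : ∀ x : ℕ, ‖∑ v ∈ pl K x, F v‖ ≤ C * (Nat.sqrt x + 1)) : MVn F 0 := by
  have h0 : Tendsto (fun N : ℕ => C * ((Nat.sqrt N + 1 : ℝ) / (Nat.primeCounting N : ℝ))) atTop
      (𝓝 0) := by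
    have := Pool.Agent.W352.ChAbs.sqrt_div_pi.const_mul C
    rwa [mul_zero] at this
  refine squeeze_zero_norm (fun x => ?_) h0
  rw [norm_div, Complex.norm_natCast, ← mul_div_assoc]
  exact div_le_div_of_nonneg_right (h x) (Nat.cast_nonneg _)

theorem negl_fin {F : HeightOneSpectrum (𝓞 K) → ℂ}
    (h : ∀ᶠ v : HeightOneSpectrum (𝓞 K) in cofinite, F v = 0) : MV F 0 := by
  classical
  have hf : {v | ¬ F v = 0}.Finite := h
  have hb : ∀ v, ‖F v‖ ≤ ∑ u ∈ hf.toFinset, ‖F u‖ := by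
    intro v
    by_cases hv : F v = 0
    · rw [hv, norm_zero]
      exact Finset.sum_nonneg fun u _ => norm_nonneg _
    · exact Finset.single_le_sum (f := fun u => ‖F u‖) (fun u _ => norm_nonneg _)
        (hf.mem_toFinset.2 hv)
  refine negl ⟨_, hb⟩ ?_ ?_
  · refine summable_of_finite_support (hf.subset fun v hv => ?_)
    intro h0
    apply hv
    show ‖F v‖ * _ = 0
    rw [h0, norm_zero, zero_mul]
  · refine mvn_zero (∑ u ∈ hf.toFinset, ‖F u‖) fun x => ?_
    have h1 : ‖∑ v ∈ pl K x, F v‖ ≤ ∑ u ∈ hf.toFinset, ‖F u‖ := by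
      have h2 : ∑ v ∈ pl K x, F v = ∑ v ∈ (pl K x).filter (fun v => ¬ F v = 0), F v :=
        (Finset.sum_filter_of_ne fun v _ hv => hv).symm
      rw [h2]
      refine (norm_sum_le _ _).trans (Finset.sum_le_sum_of_subset_of_nonneg ?_ fun _ _ _ =>
        norm_nonneg _)
      intro v hv
      exact hf.mem_toFinset.2 (Finset.mem_filter.1 hv).2
    refine h1.trans (le_mul_of_one_le_right (Finset.sum_nonneg fun u _ => norm_nonneg _) ?_)
    have : (0 : ℝ) ≤ Nat.sqrt x := Nat.cast_nonneg _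
    linarith

theorem sm2 : Summable fun u : HeightOneSpectrum (𝓞 K) => ((below u : ℕ) : ℝ) ^ (-2 : ℝ) := by
  have h1 : Summable fun x : (Σ p : Nat.Primes, {v : HeightOneSpectrum (𝓞 K) // below v = p}) =>
      ((below x.2.1 : ℕ) : ℝ) ^ (-2 : ℝ) := by
    rw [summable_sigma_of_nonneg (fun x => by positivity)]
    refine ⟨fun p => Summable.of_finite, ?_⟩
    have h2 : Summable fun p : Nat.Primes => (Module.finrank ℚ K : ℝ) * (p : ℝ) ^ (-2 : ℝ) :=
      (Nat.Primes.summable_rpow.2 (by norm_num)).mul_left _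
    refine Summable.of_nonneg_of_le (fun p => tsum_nonneg fun _ => by positivity)
      (fun p => ?_) h2
    rw [tsum_fintype]
    have h3 : ∀ v : {v : HeightOneSpectrum (𝓞 K) // below v = p},
        ((below v.1 : ℕ) : ℝ) ^ (-2 : ℝ) = (p : ℝ) ^ (-2 : ℝ) := fun v => by rw [v.2]
    simp only [h3]
    rw [Finset.sum_const, nsmul_eq_mul]
    refine mul_le_mul_of_nonneg_right ?_ (by positivity)
    exact_mod_cast Pool.Agent.H921R2.TatePole.fiber_card_le p
  exact (Equiv.sigmaFiberEquiv (below (K := K))).summable_iff.1 h1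

/-- functions on the places of degree at least two are negligible -/
theorem negl_deg {F : HeightOneSpectrum (𝓞 K) → ℂ} (hF : ∃ B : ℝ, ∀ v, ‖F v‖ ≤ B)
    (h : ∀ v, (Ideal.absNorm v.asIdeal).Prime → F v = 0) : MV F 0 := by
  classical
  obtain ⟨B, hB⟩ := hF
  refine negl ⟨B, hB⟩ ?_ ?_
  · refine Summable.of_nonneg_of_le (fun v => by positivity) (fun v => ?_)
      ((sm2 (K := K)).mul_left B)
    have h0 : (0 : ℝ) ≤ (Ideal.absNorm v.asIdeal : ℝ) ^ (-1 : ℝ) := by positivity
    have hB0 : 0 ≤ B := (norm_nonneg _).trans (hB v)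
    by_cases hp : (Ideal.absNorm v.asIdeal).Prime
    · rw [h v hp, norm_zero, zero_mul]
      positivity
    · refine mul_le_mul (hB v) ?_ h0 hB0
      obtain ⟨h1, h2, _⟩ := nm_eq v
      have h3 : Ideal.absNorm v.asIdeal = (below v : ℕ) ^
        Pool.Agent.H921R2.TatePole.deg v := h1
      have hpp : (below v : ℕ).Prime := (below v).2
      have h4 : 2 ≤ Pool.Agent.H921R2.TatePole.deg v := by
        by_contra hlt
        have h5 : Pool.Agent.H921R2.TatePole.deg v = 1 := by omega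
        rw [h5, pow_one] at h3
        exact hp (h3 ▸ hpp)
      have h6 : (below v : ℕ) ^ 2 ≤ Ideal.absNorm v.asIdeal := by
        rw [h3]
        exact Nat.pow_le_pow_right hpp.pos h4
      have h7 : (0 : ℝ) < ((below v : ℕ) : ℝ) := by exact_mod_cast hpp.pos
      rw [Real.rpow_neg_one, Real.rpow_neg h7.le]
      refine inv_anti₀ (by positivity) ?_
      rw [Real.rpow_two]
      exact_mod_cast h6
  · have hB0 : 0 ≤ |B| := abs_nonneg B
    refine mvn_zero (|B| * Module.finrank ℚ K) fun x => ?_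
    set T : Finset (HeightOneSpectrum (𝓞 K)) :=
      (pl K x).filter fun v => ¬ (Ideal.absNorm v.asIdeal).Prime with hT
    have h2 : ∑ v ∈ T, F v = ∑ v ∈ pl K x, F v := by
      rw [hT]
      apply Finset.sum_filter_of_ne
      intro v _ hv hp
      exact hv (h v hp)
    have hfin : (⋃ m ∈ Pool.Agent.W401.Cheb.pr (Nat.sqrt x),
        {v : HeightOneSpectrum (𝓞 K) | (m : 𝓞 K) ∈ v.asIdeal}).Finite := by
      apply Set.Finite.biUnion (Finset.finite_toSet _)
      intro m hm
      exact (Pool.Agent.W352.ChAbs.over_le m (Finset.mem_filter.mp hm).2).1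
    have hsub : (T : Set (HeightOneSpectrum (𝓞 K))) ⊆
        ⋃ m ∈ Pool.Agent.W401.Cheb.pr (Nat.sqrt x),
          {v : HeightOneSpectrum (𝓞 K) | (m : 𝓞 K) ∈ v.asIdeal} := by
      intro v hv
      have hv' := Finset.mem_filter.1 (Finset.mem_coe.1 hv)
      obtain ⟨m, hm, hm'⟩ := Pool.Agent.W352.ChAbs.exists_prime_of v x (mem_pl.1 hv'.1) hv'.2
      exact Set.mem_biUnion hm hm'
    have hcard : T.card ≤ (Nat.sqrt x + 1) * Module.finrank ℚ K := by
      rw [← Set.ncard_coe_finset]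
      calc (T : Set (HeightOneSpectrum (𝓞 K))).ncard ≤ _ := Set.ncard_le_ncard hsub hfin
        _ ≤ ∑ m ∈ Pool.Agent.W401.Cheb.pr (Nat.sqrt x),
            {v : HeightOneSpectrum (𝓞 K) | (m : 𝓞 K) ∈ v.asIdeal}.ncard :=
            Finset.set_ncard_biUnion_le _ _
        _ ≤ ∑ m ∈ Pool.Agent.W401.Cheb.pr (Nat.sqrt x), Module.finrank ℚ K :=
            Finset.sum_le_sum fun m hm =>
              (Pool.Agent.W352.ChAbs.over_le m (Finset.mem_filter.mp hm).2).2
        _ = (Pool.Agent.W401.Cheb.pr (Nat.sqrt x)).card * Module.finrank ℚ K := by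
            rw [Finset.sum_const, smul_eq_mul]
        _ ≤ (Nat.sqrt x + 1) * Module.finrank ℚ K := by
            apply Nat.mul_le_mul_right
            calc (Pool.Agent.W401.Cheb.pr (Nat.sqrt x)).card ≤
                  (Finset.range (Nat.sqrt x + 1)).card := Finset.card_filter_le _ _
              _ = _ := Finset.card_range _
    rw [← h2]
    refine (norm_sum_le _ _).trans ((Finset.sum_le_card_nsmul _ _ |B| fun v _ =>
      (hB v).trans (le_abs_self B)).trans ?_)
    rw [nsmul_eq_mul]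
    have h3 : (T.card : ℝ) ≤ (Nat.sqrt x + 1) * Module.finrank ℚ K := by exact_mod_cast hcard
    calc (T.card : ℝ) * |B| ≤ ((Nat.sqrt x + 1) * Module.finrank ℚ K) * |B| :=
          mul_le_mul_of_nonneg_right h3 hB0
      _ = _ := by ring

end

/-! ## The places of degree one of an extension -/

section push
variable {K : Type} [Field K] [NumberField K] {M : Type} [Field M] [NumberField M] [Algebra K M]

open Classical in
/-- the sum over the places above `v` of the same norm -/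
noncomputable def pu (G : HeightOneSpectrum (𝓞 M) → ℂ) (v : HeightOneSpectrum (𝓞 K)) : ℂ :=
  ∑ u ∈ (pl M (Ideal.absNorm v.asIdeal)).filter
    (fun u => u.under (𝓞 K) = v ∧ Ideal.absNorm u.asIdeal = Ideal.absNorm v.asIdeal), G u

open Classical in
/-- the restriction to the places of relative degree one -/
noncomputable def rs (K : Type) [Field K] [NumberField K] [Algebra K M]
    (G : HeightOneSpectrum (𝓞 M) → ℂ) (u : HeightOneSpectrum (𝓞 M)) : ℂ :=
  if Ideal.absNorm u.asIdeal = Ideal.absNorm (u.under (𝓞 K)).asIdeal then G u else 0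

theorem pu_bdd {G : HeightOneSpectrum (𝓞 M) → ℂ} (hG : ∃ B : ℝ, ∀ v, ‖G v‖ ≤ B) :
    ∃ B : ℝ, ∀ v : HeightOneSpectrum (𝓞 K), ‖pu G v‖ ≤ B := by
  classical
  obtain ⟨B, hB⟩ := hG
  refine ⟨Module.finrank ℚ M * |B|, fun v => ?_⟩
  rw [pu]
  refine (norm_sum_le _ _).trans ((Finset.sum_le_card_nsmul _ _ |B| fun u _ =>
      (hB u).trans (le_abs_self B)).trans ?_)
  rw [nsmul_eq_mul]
  refine mul_le_mul_of_nonneg_right ?_ (abs_nonneg B)
  have h1 : ((pl M (Ideal.absNorm v.asIdeal)).filter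
      (fun u => u.under (𝓞 K) = v ∧ Ideal.absNorm u.asIdeal = Ideal.absNorm v.asIdeal)).card ≤
      Module.finrank ℚ M := by
    refine card_above ⟨(Ideal.absNorm v.asIdeal).minFac, Nat.minFac_prime (one_lt_N v).ne'⟩ _
      fun u hu => ?_
    apply Subtype.ext
    show (Ideal.absNorm u.asIdeal).minFac = _
    rw [(Finset.mem_filter.1 hu).2.2]
  exact_mod_cast h1

theorem push {G : HeightOneSpectrum (𝓞 M) → ℂ} (w : ℕ → ℂ)
    (hs : Summable fun u : HeightOneSpectrum (𝓞 M) => rs K G u * w (Ideal.absNorm u.asIdeal)) :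
    ∑' v : HeightOneSpectrum (𝓞 K), pu G v * w (Ideal.absNorm v.asIdeal) =
      ∑' u : HeightOneSpectrum (𝓞 M), rs K G u * w (Ideal.absNorm u.asIdeal) := by
  classical
  have h0 := ((Equiv.sigmaFiberEquiv (fun u : HeightOneSpectrum (𝓞 M) =>
    u.under (𝓞 K))).summable_iff.mpr hs)
  rw [← (Equiv.sigmaFiberEquiv (fun u : HeightOneSpectrum (𝓞 M) => u.under (𝓞 K))).tsum_eq
    (fun u => rs K G u * w (Ideal.absNorm u.asIdeal))]
  have h1 := h0.tsum_sigma
  refine Eq.trans ?_ h1.symm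
  refine tsum_congr fun v => ?_
  have h2 : ∑' u : {u : HeightOneSpectrum (𝓞 M) // u.under (𝓞 K) = v},
      rs K G u.1 * w (Ideal.absNorm u.1.asIdeal) =
      ∑' u : HeightOneSpectrum (𝓞 M), Set.indicator {u | u.under (𝓞 K) = v}
        (fun u => rs K G u * w (Ideal.absNorm u.asIdeal)) u :=
    tsum_subtype {u : HeightOneSpectrum (𝓞 M) | u.under (𝓞 K) = v}
      (fun u => rs K G u * w (Ideal.absNorm u.asIdeal))
  refine Eq.trans ?_ h2.symm
  rw [tsum_eq_sum (s := (pl M (Ideal.absNorm v.asIdeal)).filter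
    (fun u => u.under (𝓞 K) = v ∧ Ideal.absNorm u.asIdeal = Ideal.absNorm v.asIdeal)), pu,
    Finset.sum_mul]
  · refine Finset.sum_congr rfl fun u hu => ?_
    obtain ⟨_, h3, h4⟩ := Finset.mem_filter.1 hu
    rw [Set.indicator_of_mem (show u ∈ {u : HeightOneSpectrum (𝓞 M) | u.under (𝓞 K) = v} from h3),
      rs, h3, if_pos h4, h4]
  · intro u hu
    by_cases h3 : u.under (𝓞 K) = v
    · rw [Set.indicator_of_mem (show u ∈ {u : HeightOneSpectrum (𝓞 M) | u.under (𝓞 K) = v}
        from h3), rs, if_neg, zero_mul]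
      intro h4
      rw [h3] at h4
      exact hu (Finset.mem_filter.2 ⟨mem_pl.2 h4.le, h3, h4⟩)
    · rw [Set.indicator_of_notMem]
      exact h3

/-- the mean value of the push-forward -/
theorem mv_pu {G : HeightOneSpectrum (𝓞 M) → ℂ} {r : ℂ} (hG : MV G r) :
    MV (fun v : HeightOneSpectrum (𝓞 K) => pu G v) r := by
  classical
  obtain ⟨B, hB⟩ := hG.bdd
  -- the restriction
  have h1 : MV (fun u => -1 * (G u - rs K G u)) (-1 * 0) := by
    refine mv_mul _ (negl_deg ⟨B, fun u => ?_⟩ fun u hu => ?_)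
    · rw [rs]
      split_ifs
      · rw [sub_self, norm_zero]
        exact (norm_nonneg _).trans (hB u)
      · rw [sub_zero]
        exact hB u
    · have h2 : Ideal.absNorm u.asIdeal = Ideal.absNorm (u.under (𝓞 K)).asIdeal := by
        have h3 := Pool.Agent.Q5.BR.absNorm_rdeg (K := K) u
        rw [h3] at hu
        have h4 : Pool.Agent.Q5.BR.rdeg K u = 1 := by
          by_contra h5
          exact Nat.Prime.not_prime_pow' h5 hu
        rw [h3, h4, pow_one]
      rw [rs, if_pos h2, sub_self]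
  have h5 := mv_add hG h1
  rw [mul_zero, add_zero] at h5
  have h6 : (fun v => G v + -1 * (G v - rs K G v)) = rs K G := by
    funext v
    ring
  rw [h6] at h5
  refine ⟨pu_bdd ⟨B, hB⟩, ?_, ?_⟩
  · refine h5.nat.congr fun x => ?_
    have h7 := push (K := K) (G := G) (fun n => if n ≤ x then 1 else 0)
      (summable_of_ne_finset_zero (s := pl M x) fun u hu => by
        rw [mem_pl] at hu
        rw [if_neg hu, mul_zero])
    rw [tsum_eq_sum (s := pl K x) (fun v hv => by
      rw [mem_pl] at hv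
      rw [if_neg hv, mul_zero]), tsum_eq_sum (s := pl M x) (fun v hv => by
      rw [mem_pl] at hv
      rw [if_neg hv, mul_zero])] at h7
    have h8 : ∀ (L : Type) [Field L] [NumberField L] (f : HeightOneSpectrum (𝓞 L) → ℂ),
        ∑ v ∈ pl L x, f v * (if Ideal.absNorm v.asIdeal ≤ x then (1 : ℂ) else 0) =
        ∑ v ∈ pl L x, f v := fun L _ _ f => Finset.sum_congr rfl fun v hv => by
      rw [if_pos (mem_pl.1 hv), mul_one]
    rw [h8, h8] at h7
    rw [h7]
  · obtain ⟨c, hc⟩ := h5.edge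
    refine ⟨c, hc.congr' ?_⟩
    filter_upwards [self_mem_nhdsWithin] with s hs
    rw [push (K := K) (G := G) (fun n => (((n : ℝ) ^ (-s) : ℝ) : ℂ)) (smF h5.bdd hs)]

end push

end Pool.Agent.H800.ME.DEU
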