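import Pool.Agent.H800.ME.DEU2
import Pool.Agent.H800.ME.DEU3

set_option autoImplicit false
set_option linter.unusedSectionVars false

/-!
# Deuring's reduction (`S_DEU`, part A4 of project ME, by helper800 for helper500)
-/

namespace Pool.Agent.H800.ME.DEU

open NumberField IsDedekindDomain Filter Topology
open Pool.Agent.W401.Cheb (GK IsFrob IsInert)
open Pool.Agent.H500.ME (pl MVn MVe MV Cls)
open Pool.Agent.H500.SV (Above)
open Pool.Agent.H500.ED (FX)
open Pool.Agent.H199.ED.FXC (frob)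

section
variable {K : Type} [Field K] [NumberField K]
variable {M : Type} [Field M] [NumberField M] [Algebra K M] {io : GK M →* GK K}
variable {e : AlgebraicClosure M ≃+* AlgebraicClosure K}

theorem above_of {u : HeightOneSpectrum (𝓞 M)} {v : HeightOneSpectrum (𝓞 K)}
    (h : u.under (𝓞 K) = v) : Above u v := by
  subst h
  rfl

/-- the sum over the places of degree one above a good place -/
theorem pu_eq {U : Subgroup (GK K)} [hU : U.Normal] {g : GK K}
    (hfx : FX (U ⊔ Subgroup.zpowers g) M io e) {F : HeightOneSpectrum (𝓞 K) → ℂ}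
    {FM : HeightOneSpectrum (𝓞 M) → ℂ} {v : HeightOneSpectrum (𝓞 K)}
    (hI : ∀ τ, IsInert v τ → τ ∈ U)
    (hA : (∀ σ, IsFrob v σ → σ ∉ Cls U g) → F v = 0)
    (hB : ∀ u : HeightOneSpectrum (𝓞 M), u.under (𝓞 K) = v → ∀ s, IsFrob u s →
      g⁻¹ * io s ∉ U → FM u = 0)
    (hC : ∀ u : HeightOneSpectrum (𝓞 M), Above u v →
      Ideal.absNorm u.asIdeal = Ideal.absNorm v.asIdeal → ∀ s, IsFrob u s → g⁻¹ * io s ∈ U →
      FM u = F v) :
    pu FM v = ((U ⊔ Subgroup.zpowers g).relIndex (Sg U g) : ℕ) * F v := by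
  classical
  by_cases hv : ∀ σ, IsFrob v σ → σ ∉ Cls U g
  · rw [hA hv, mul_zero, pu]
    refine Finset.sum_eq_zero fun u hu => ?_
    obtain ⟨_, h1, h2⟩ := Finset.mem_filter.1 hu
    obtain ⟨s, hs⟩ := Pool.Agent.W401.Frob.exists_frob u
    refine hB u h1 s hs fun hsU => ?_
    obtain ⟨f, _, hf, h3⟩ := frob hfx (above_of h1)
    obtain ⟨σ, τ, hσ, hτ, h4⟩ := h3 s hs
    have hf1 : f = 1 := by
      rw [h2] at hf
      exact Nat.pow_right_injective (one_lt_N v) ((by simpa using hf.symm :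
        Ideal.absNorm v.asIdeal ^ f = Ideal.absNorm v.asIdeal ^ 1))
    rw [hf1, pow_one] at h4
    refine hv σ hσ ⟨1, ?_⟩
    have h5 : g⁻¹ * (1⁻¹ * σ * 1) = (g⁻¹ * io s) * τ⁻¹ := by
      rw [h4]
      group
    rw [h5]
    exact U.mul_mem hsU (U.inv_mem (hI τ hτ))
  · push Not at hv
    obtain ⟨σ0, hσ0, y, hy⟩ := hv
    have hσ : IsFrob v (y⁻¹ * σ0 * y) := by
      have h1 := (Pool.Agent.W401.Frob.main K).2.2 v σ0 y⁻¹ hσ0
      rwa [inv_inv] at h1
    have hcount := count hfx hσ hy hI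
    set T : Finset (HeightOneSpectrum (𝓞 M)) := (pl M (Ideal.absNorm v.asIdeal)).filter
      (fun u => u.under (𝓞 K) = v ∧ Ideal.absNorm u.asIdeal = Ideal.absNorm v.asIdeal) with hT
    have h1 : ((T.filter fun u => ∃ s, IsFrob u s ∧ g⁻¹ * io s ∈ U :
        Finset (HeightOneSpectrum (𝓞 M))) : Set (HeightOneSpectrum (𝓞 M))) =
        {u : HeightOneSpectrum (𝓞 M) | Above u v ∧
          Ideal.absNorm u.asIdeal = Ideal.absNorm v.asIdeal ∧
          ∃ s, IsFrob u s ∧ g⁻¹ * io s ∈ U} := by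
      ext u
      rw [Finset.mem_coe, Finset.mem_filter, hT, Finset.mem_filter, mem_pl]
      constructor
      · rintro ⟨⟨_, h2, h3⟩, h4⟩
        exact ⟨above_of h2, h3, h4⟩
      · rintro ⟨h2, h3, h4⟩
        exact ⟨⟨h3.le, HeightOneSpectrum.ext h2, h3⟩, h4⟩
    rw [← h1, Set.ncard_coe_finset] at hcount
    have h2 : pu FM v = ∑ u ∈ T.filter (fun u => ∃ s, IsFrob u s ∧ g⁻¹ * io s ∈ U), FM u := by
      rw [pu, ← hT]
      symm
      apply Finset.sum_filter_of_ne
      intro u hu hne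
      by_contra hcon
      obtain ⟨s, hs⟩ := Pool.Agent.W401.Frob.exists_frob u
      exact hne (hB u (Finset.mem_filter.1 hu).2.1 s hs fun hsU => hcon ⟨s, hs, hsU⟩)
    have h3 : ∀ u ∈ T.filter (fun u => ∃ s, IsFrob u s ∧ g⁻¹ * io s ∈ U), FM u = F v := by
      intro u hu
      obtain ⟨h4, s, hs, hsU⟩ := Finset.mem_filter.1 hu
      obtain ⟨_, h5, h6⟩ := Finset.mem_filter.1 h4
      exact hC u (above_of h5) h6 s hs hsU
    rw [h2, Finset.sum_congr rfl h3, Finset.sum_const, nsmul_eq_mul, hcount]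

end

/-- **Part A4 of project ME.** -/
theorem main : Pool.Agent.H500.ED.S_FXC → Pool.Agent.H500.ED.S_FXJ → Pool.Agent.H500.ME.S_DEU := by
  intro _ _ K _ _ U g M _ _ _ io e hU hUo hfx F FM r hFB hA hB hC hM
  have hU' : U.Normal := hU
  set c : ℕ := (U ⊔ Subgroup.zpowers g).relIndex (Sg U g) with hc
  have hI : ∀ᶠ v : HeightOneSpectrum (𝓞 K) in cofinite, ∀ τ, IsInert v τ → τ ∈ U := by
    refine (Pool.Agent.H499.CM.finite_ram U hUo).subset fun v hv => ?_
    by_contra h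
    exact hv fun τ hτ => by_contra fun h2 => h ⟨τ, hτ, h2⟩
  have hB' : ∀ᶠ v : HeightOneSpectrum (𝓞 K) in cofinite, ∀ u : HeightOneSpectrum (𝓞 M),
      u.under (𝓞 K) = v → ∀ s, IsFrob u s → g⁻¹ * io s ∉ U → FM u = 0 := by
    have h1 : {u : HeightOneSpectrum (𝓞 M) | ¬ ∀ s, IsFrob u s → g⁻¹ * io s ∉ U →
      FM u = 0}.Finite := hB
    refine (h1.image (fun u => u.under (𝓞 K))).subset fun v hv => ?_
    by_contra h
    exact hv fun u hu => by_contra fun h2 => h ⟨u, h2, hu⟩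
  have hD : ∀ᶠ v : HeightOneSpectrum (𝓞 K) in cofinite, (c : ℂ) * F v - pu FM v = 0 := by
    filter_upwards [hI, hA, hB', hC] with v h1 h2 h3 h4
    rw [pu_eq hfx h1 h2 h3 h4, sub_self]
  have h5 := mv_add (mv_pu (K := K) hM) (negl_fin hD)
  have h6 : (fun v => pu FM v + ((c : ℂ) * F v - pu FM v)) = fun v => (c : ℂ) * F v := by
    funext v
    ring
  rw [h6, add_zero] at h5
  -- the numbers
  have hidx := idx U g
  rw [← hc] at hidx
  have hfi : U.index ≠ 0 := by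
    have : Finite (GK K ⧸ U) := Subgroup.quotient_finite_of_isOpen _ hUo
    exact Subgroup.index_ne_zero_of_finite
  have hc0 : (c : ℂ) ≠ 0 := by
    intro h
    have h7 : c = 0 := by exact_mod_cast h
    rw [h7, mul_zero] at hidx
    exact hfi hidx.symm
  have h8 := mv_mul (c : ℂ)⁻¹ h5
  have h9 : (fun v => (c : ℂ)⁻¹ * ((c : ℂ) * F v)) = F := by
    funext v
    rw [inv_mul_cancel_left₀ hc0]
  rw [h9] at h8
  have h10 : (c : ℂ)⁻¹ = ((({x : GK K ⧸ U | ∃ y : GK K,
      x = QuotientGroup.mk (y⁻¹ * g * y)}.ncard *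
      U.relIndex (U ⊔ Subgroup.zpowers g) : ℕ) : ℂ) / (U.index : ℂ)) := by
    have h11 : (U.index : ℂ) ≠ 0 := by exact_mod_cast hfi
    rw [eq_div_iff h11, inv_mul_eq_iff_eq_mul₀ hc0, ← hidx]
    push_cast
    ring
  rw [h10] at h8
  exact h8

end Pool.Agent.H800.ME.DEU
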