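import Pool.Agent.H500.ME.Stm
import Pool.Agent.H199.ED.FXC
import Pool.Agent.H499.CM.Unr

set_option autoImplicit false
set_option linter.unusedSectionVars false

/-!
# Deuring's reduction (part A4 of project ME), 1: the places of degree one, local part
-/

namespace Pool.Agent.H800.ME.DEU

open NumberField IsDedekindDomain Filter Topology
open Pool.Agent.W401.Cheb (GK IsFrob IsInert)
open Pool.Agent.H500.SV (Above)
open Pool.Agent.H500.ED (FX)
open Pool.Agent.H199.ED.FXC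

/-- every automorphism of the residue field of `Q` over the residue field of `u` is induced by an
element of the Galois group -/
theorem dec_surj {M : Type} [Field M] [NumberField M] (u : HeightOneSpectrum (𝓞 M))
    (Q : Ideal (𝓞 (AlgebraicClosure M))) [hQ : Q.IsMaximal]
    (hQu : Q.comap (algebraMap (𝓞 M) (𝓞 (AlgebraicClosure M))) = u.asIdeal)
    (f : 𝓞 (AlgebraicClosure M) ≃+* 𝓞 (AlgebraicClosure M)) (hf : ∀ x, f x ∈ Q ↔ x ∈ Q)
    (hfu : ∀ a : 𝓞 M, f (algebraMap (𝓞 M) (𝓞 (AlgebraicClosure M)) a) -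
      algebraMap (𝓞 M) (𝓞 (AlgebraicClosure M)) a ∈ Q) :
    ∃ s : GK M, ∀ x, s • x - f x ∈ Q := by
  let _ : TopologicalSpace (𝓞 (AlgebraicClosure M)) := ⊥
  have : DiscreteTopology (𝓞 (AlgebraicClosure M)) := ⟨rfl⟩
  have : ContinuousSMul (GK M) (𝓞 (AlgebraicClosure M)) := by
    rw [continuousSMul_iff_stabilizer_isOpen]
    intro x
    have h0 := stabilizer_isOpen_of_isIntegral (K := M) (L := AlgebraicClosure M) (x : AlgebraicClosure M)
    have h1 : (MulAction.stabilizer (GK M) x : Set (GK M)) =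
        (MulAction.stabilizer (GK M) (x : AlgebraicClosure M) : Set (GK M)) := by
      ext σ
      simp only [SetLike.mem_coe, MulAction.mem_stabilizer_iff]
      constructor
      · intro h
        exact congrArg (fun y : 𝓞 (AlgebraicClosure M) => (y : AlgebraicClosure M)) h
      · intro h
        exact RingOfIntegers.ext h
    rw [h1]
    exact h0
  have : Q.LiesOver u.asIdeal := ⟨hQu.symm⟩
  have := u.isPrime
  have : u.asIdeal.IsMaximal := u.isMaximal
  have hfQ : Q = Q.map (f : 𝓞 (AlgebraicClosure M) →+* 𝓞 (AlgebraicClosure M)) := by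
    rw [Ideal.map_comap_of_equiv]
    ext x
    show x ∈ Q ↔ f.symm x ∈ Q
    rw [← hf (f.symm x), f.apply_symm_apply]
  let l : (𝓞 (AlgebraicClosure M) ⧸ Q) ≃ₐ[𝓞 M ⧸ u.asIdeal] 𝓞 (AlgebraicClosure M) ⧸ Q :=
    { __ := Ideal.quotientEquiv Q Q f hfQ
      commutes' := by
        intro r
        obtain ⟨a, rfl⟩ := Ideal.Quotient.mk_surjective r
        exact Ideal.Quotient.eq.2 (hfu a) }
  obtain ⟨σ, hσ⟩ := Ideal.Quotient.stabilizerHom_surjective_of_profinite (G := GK M) u.asIdeal Q l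
  refine ⟨σ, fun x ↦ ?_⟩
  rw [← Ideal.Quotient.eq]
  exact DFunLike.congr_fun hσ (Ideal.Quotient.mk Q x)

section loc
variable {K : Type} [Field K] [NumberField K] {H : Subgroup (GK K)}
variable {M : Type} [Field M] [NumberField M] [Algebra K M] {io : GK M →* GK K}
variable {e : AlgebraicClosure M ≃+* AlgebraicClosure K}

theorem res_eq {v : HeightOneSpectrum (𝓞 K)} {u : HeightOneSpectrum (𝓞 M)} (huv : Above u v)
    (hN : Ideal.absNorm u.asIdeal = Ideal.absNorm v.asIdeal) (a : 𝓞 M) :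
    ∃ b : 𝓞 K, a - algebraMap (𝓞 K) (𝓞 M) b ∈ u.asIdeal := by
  have h' : u.asIdeal.comap (algebraMap (𝓞 K) (𝓞 M)) = v.asIdeal := huv
  let φ : 𝓞 K ⧸ v.asIdeal →+* 𝓞 M ⧸ u.asIdeal :=
    Ideal.quotientMap u.asIdeal (algebraMap (𝓞 K) (𝓞 M)) h'.ge
  have hφ : Function.Injective φ := Ideal.quotientMap_injective' h'.le
  have : Finite (𝓞 M ⧸ u.asIdeal) := Ideal.finiteQuotientOfFreeOfNeBot _ u.ne_bot
  have hc : Nat.card (𝓞 M ⧸ u.asIdeal) ≤ Nat.card (𝓞 K ⧸ v.asIdeal) := by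
    rw [Ideal.absNorm_apply, Ideal.absNorm_apply, Submodule.cardQuot_apply,
      Submodule.cardQuot_apply] at hN
    exact hN.le
  obtain ⟨b', hb'⟩ := (hφ.bijective_of_nat_card_le hc).2 (Ideal.Quotient.mk _ a)
  obtain ⟨b, rfl⟩ := Ideal.Quotient.mk_surjective b'
  refine ⟨b, ?_⟩
  rw [← Ideal.Quotient.eq, ← hb']
  rfl

/-- the decomposition group at a place of degree one -/
theorem dec (hfx : FX H M io e) {v : HeightOneSpectrum (𝓞 K)} {u : HeightOneSpectrum (𝓞 M)}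
    (huv : Above u v) (hN : Ideal.absNorm u.asIdeal = Ideal.absNorm v.asIdeal)
    {Q : Ideal (𝓞 (AlgebraicClosure K))} (hQm : Q.IsMaximal)
    (hQu : (Q.comap (up e)).comap (algebraMap (𝓞 M) (𝓞 (AlgebraicClosure M))) = u.asIdeal)
    {d : GK K} (hd : ∀ x : 𝓞 (AlgebraicClosure K), x ∈ Q ↔ d • x ∈ Q) :
    ∃ s : GK M, ∀ x : 𝓞 (AlgebraicClosure K), (d⁻¹ * io s) • x - x ∈ Q := by
  let f0 : 𝓞 (AlgebraicClosure M) →+* 𝓞 (AlgebraicClosure M) :=
    (dn e).comp ((MulSemiringAction.toRingHom (GK K) (𝓞 (AlgebraicClosure K)) d).comp (up e))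
  let f1 : 𝓞 (AlgebraicClosure M) →+* 𝓞 (AlgebraicClosure M) :=
    (dn e).comp ((MulSemiringAction.toRingHom (GK K) (𝓞 (AlgebraicClosure K)) d⁻¹).comp (up e))
  have hf0 : ∀ x, f0 x = dn e (d • up e x) := fun x => rfl
  have hf1 : ∀ x, f1 x = dn e (d⁻¹ • up e x) := fun x => rfl
  let f : 𝓞 (AlgebraicClosure M) ≃+* 𝓞 (AlgebraicClosure M) := RingEquiv.ofRingHom f0 f1
    (by
      ext1 x
      show f0 (f1 x) = x
      rw [hf0, hf1, up_dn, smul_inv_smul, dn_up])
    (by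
      ext1 x
      show f1 (f0 x) = x
      rw [hf0, hf1, up_dn, inv_smul_smul, dn_up])
  have hff : ∀ x, f x = dn e (d • up e x) := fun x => rfl
  have := up_max e hQm
  have hfm : ∀ x, f x ∈ Q.comap (up e) ↔ x ∈ Q.comap (up e) := by
    intro x
    rw [Ideal.mem_comap, Ideal.mem_comap, hff, up_dn, ← hd]
  have hfb : ∀ b : 𝓞 K, f (algebraMap (𝓞 M) (𝓞 (AlgebraicClosure M)) (algebraMap (𝓞 K) (𝓞 M) b)) =
      algebraMap (𝓞 M) (𝓞 (AlgebraicClosure M)) (algebraMap (𝓞 K) (𝓞 M) b) := by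
    intro b
    rw [hff, ← dn_alg hfx, up_dn, Pool.Agent.W401.Frob.smul_alg]
  obtain ⟨s, hs⟩ := dec_surj u (Q.comap (up e)) hQu f hfm (by
    intro a
    obtain ⟨b, hb⟩ := res_eq huv hN a
    rw [← hQu, Ideal.mem_comap] at hb
    have h1 := Ideal.sub_mem _ ((hfm _).2 hb) hb
    rw [map_sub, map_sub, hfb, sub_sub_sub_cancel_right] at h1
    exact h1)
  refine ⟨s, fun x => ?_⟩
  have h2 := hs (dn e x)
  rw [Ideal.mem_comap, map_sub, up_smul hfx, hff, up_dn, up_dn] at h2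
  rw [hd, smul_sub, smul_smul, mul_inv_cancel_left]
  exact h2

end loc

end Pool.Agent.H800.ME.DEU
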