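import Pool.Agent.H800.ME.DEU1

set_option autoImplicit false
set_option linter.unusedSectionVars false

/-!
# Deuring's reduction (part A4 of project ME), 2: the number of the places of degree one
-/

namespace Pool.Agent.H800.ME.DEU

open NumberField IsDedekindDomain Filter Topology
open Pool.Agent.W401.Cheb (GK IsFrob IsInert)
open Pool.Agent.H500.SV (Above)
open Pool.Agent.H500.ED (FX)
open Pool.Agent.H199.ED.FXC

section grp
variable {G : Type} [Group G] (U : Subgroup G) [hU : U.Normal] (g : G)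

/-- the inverse image of the centralizer of the class of `g` modulo `U` -/
def Sg : Subgroup G :=
  (MulAction.stabilizer (ConjAct (G ⧸ U)) (QuotientGroup.mk g : G ⧸ U)).comap
    ((ConjAct.toConjAct : (G ⧸ U) ≃* ConjAct (G ⧸ U)).toMonoidHom.comp (QuotientGroup.mk' U))

variable {U g}

theorem mem_Sg {y : G} : y ∈ Sg U g ↔ g⁻¹ * (y⁻¹ * g * y) ∈ U := by
  have h1 : y ∈ Sg U g ↔ (QuotientGroup.mk y : G ⧸ U) * QuotientGroup.mk g *
      (QuotientGroup.mk y)⁻¹ = QuotientGroup.mk g := Iff.rfl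
  have h2 : (QuotientGroup.mk y : G ⧸ U) * QuotientGroup.mk g * (QuotientGroup.mk y)⁻¹ =
      QuotientGroup.mk g ↔
      (QuotientGroup.mk g : G ⧸ U) = QuotientGroup.mk (y⁻¹ * g * y) := by
    rw [QuotientGroup.mk_mul, QuotientGroup.mk_mul, QuotientGroup.mk_inv,
      mul_inv_eq_iff_eq_mul, mul_assoc, eq_inv_mul_iff_mul_eq]
  rw [h1, h2, QuotientGroup.eq]

variable (U g)

theorem index_Sg : (Sg U g).index =
    {x : G ⧸ U | ∃ y : G, x = QuotientGroup.mk (y⁻¹ * g * y)}.ncard := by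
  rw [Sg, Subgroup.index_comap_of_surjective _ (by
    intro x
    obtain ⟨y, hy⟩ := QuotientGroup.mk_surjective (ConjAct.ofConjAct x)
    refine ⟨y, ?_⟩
    show ConjAct.toConjAct (QuotientGroup.mk y : G ⧸ U) = x
    rw [hy, ConjAct.toConjAct_ofConjAct]), MulAction.index_stabilizer]
  congr 1
  ext x
  constructor
  · rintro ⟨a, ha⟩
    obtain ⟨y, hy⟩ := QuotientGroup.mk_surjective (ConjAct.ofConjAct a)
    refine ⟨y⁻¹, ?_⟩
    rw [← ha]
    show ConjAct.ofConjAct a * QuotientGroup.mk g * (ConjAct.ofConjAct a)⁻¹ = _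
    rw [← hy, inv_inv]
    rfl
  · rintro ⟨y, rfl⟩
    refine ⟨ConjAct.toConjAct (QuotientGroup.mk y⁻¹ : G ⧸ U), ?_⟩
    show (QuotientGroup.mk y⁻¹ : G ⧸ U) * QuotientGroup.mk g * (QuotientGroup.mk y⁻¹)⁻¹ = _
    rw [QuotientGroup.mk_mul, QuotientGroup.mk_mul, QuotientGroup.mk_inv, inv_inv]

variable {U g}

theorem g_mem : g ∈ U ⊔ Subgroup.zpowers g :=
  (le_sup_right : Subgroup.zpowers g ≤ U ⊔ Subgroup.zpowers g) (Subgroup.mem_zpowers g)

theorem le_Sg : U ⊔ Subgroup.zpowers g ≤ Sg U g := by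
  refine sup_le (fun u hu => ?_) ?_
  · rw [mem_Sg]
    have h1 : g⁻¹ * (u⁻¹ * g * u) = (g⁻¹ * u⁻¹ * g) * u := by group
    rw [h1]
    exact U.mul_mem (hU.conj_mem' _ (U.inv_mem hu) g) hu
  · rw [Subgroup.zpowers_le, mem_Sg]
    have h1 : g⁻¹ * (g⁻¹ * g * g) = 1 := by group
    rw [h1]
    exact U.one_mem

variable (U g)

theorem idx : {x : G ⧸ U | ∃ y : G, x = QuotientGroup.mk (y⁻¹ * g * y)}.ncard *
    U.relIndex (U ⊔ Subgroup.zpowers g) * (U ⊔ Subgroup.zpowers g).relIndex (Sg U g) =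
    U.index := by
  rw [← index_Sg, mul_assoc, Subgroup.relIndex_mul_relIndex _ _ _ le_sup_left le_Sg, mul_comm,
    Subgroup.relIndex_mul_index (le_sup_left.trans le_Sg)]

end grp

section loc
variable {K : Type} [Field K] [NumberField K]
variable {M : Type} [Field M] [NumberField M] [Algebra K M] {io : GK M →* GK K}
variable {e : AlgebraicClosure M ≃+* AlgebraicClosure K}

/-- the number of the places of degree one with Frobenius elements in `g U` -/
theorem count {g : GK K} {U : Subgroup (GK K)} [hU : U.Normal]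
    (hfx : FX (U ⊔ Subgroup.zpowers g) M io e) {v : HeightOneSpectrum (𝓞 K)} {σ : GK K}
    (hσ : IsFrob v σ) (hσg : g⁻¹ * σ ∈ U) (hI : ∀ τ, IsInert v τ → τ ∈ U) :
    {u : HeightOneSpectrum (𝓞 M) | Above u v ∧ Ideal.absNorm u.asIdeal = Ideal.absNorm v.asIdeal ∧
      ∃ s, IsFrob u s ∧ g⁻¹ * io s ∈ U}.ncard = (U ⊔ Subgroup.zpowers g).relIndex (Sg U g) := by
  obtain ⟨Q, hQm, hQv, hQ⟩ := hσ
  let c : GK K → (𝓞 (AlgebraicClosure K) →+* 𝓞 (AlgebraicClosure K)) := fun y =>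
    MulSemiringAction.toRingHom (GK K) (𝓞 (AlgebraicClosure K)) y
  have hc : ∀ y x, c y x = y • x := fun y x => rfl
  have hm : ∀ y, (Q.comap (c y)).IsMaximal := fun y =>
    Ideal.comap_isMaximal_of_surjective _ fun x => ⟨y⁻¹ • x, by rw [hc, smul_inv_smul]⟩
  have hv : ∀ y, (Q.comap (c y)).comap (algebraMap (𝓞 K) (𝓞 (AlgebraicClosure K))) =
      v.asIdeal := by
    intro y
    rw [← hQv]
    ext a
    rw [Ideal.mem_comap, Ideal.mem_comap, Ideal.mem_comap, hc, Pool.Agent.W401.Frob.smul_alg]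
  have hfr : ∀ (y : GK K) (x : 𝓞 (AlgebraicClosure K)),
      (y⁻¹ * σ * y) • x - x ^ Ideal.absNorm v.asIdeal ∈ Q.comap (c y) := by
    intro y x
    have h1 := hQ (y • x)
    rw [Ideal.mem_comap, hc, smul_sub, smul_smul, smul_pow', mul_assoc, mul_inv_cancel_left,
      ← smul_smul]
    exact h1
  choose pt hpt1 hpt2 using fun y => exists_w hfx (hm y) (hv y)
  have hmM : ∀ y, ((Q.comap (c y)).comap (up e)).IsMaximal := fun y => up_max e (hm y)
  have hUH : U ≤ U ⊔ Subgroup.zpowers g := le_sup_left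
  -- the places of the elements of `Sg`
  have P1 : ∀ y ∈ Sg U g, Ideal.absNorm (pt y).asIdeal = Ideal.absNorm v.asIdeal ∧
      ∃ s, IsFrob (pt y) s ∧ g⁻¹ * io s ∈ U := by
    intro y hy
    rw [mem_Sg] at hy
    have h1 : g⁻¹ * (y⁻¹ * σ * y) ∈ U := by
      have h2 : g⁻¹ * (y⁻¹ * σ * y) = (g⁻¹ * (y⁻¹ * g * y)) * (y⁻¹ * (g⁻¹ * σ) * y) := by group
      rw [h2]
      exact U.mul_mem hy (hU.conj_mem' _ hσg y)
    have h3 : y⁻¹ * σ * y ∈ U ⊔ Subgroup.zpowers g := by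
      have h4 := Subgroup.mul_mem _ (g_mem (U := U) (g := g)) (hUH h1)
      rwa [mul_inv_cancel_left] at h4
    obtain ⟨s, hs⟩ := exists_lift hfx h3
    have h5 : ∀ x : 𝓞 (AlgebraicClosure M),
        s • x - x ^ Ideal.absNorm v.asIdeal ∈ (Q.comap (c y)).comap (up e) := by
      intro x
      rw [Ideal.mem_comap, map_sub, up_smul hfx, map_pow, hs]
      exact hfr y _
    have h6 : ∀ x : 𝓞 M, x ^ Ideal.absNorm v.asIdeal ^ 1 - x ∈ (pt y).asIdeal := by
      intro x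
      have h7 := h5 (algebraMap (𝓞 M) (𝓞 (AlgebraicClosure M)) x)
      rw [Pool.Agent.W401.Frob.smul_alg, ← map_pow, ← map_sub, ← Ideal.mem_comap, hpt2] at h7
      have h8 := (pt y).asIdeal.neg_mem h7
      rwa [neg_sub, ← pow_one (Ideal.absNorm v.asIdeal)] at h8
    have huv : (pt y).under (𝓞 K) = v := HeightOneSpectrum.ext (hpt1 y)
    have hN : Ideal.absNorm (pt y).asIdeal =
        Ideal.absNorm v.asIdeal ^ Pool.Agent.Q5.BR.rdeg K (pt y) := by
      rw [Pool.Agent.Q5.BR.absNorm_rdeg (K := K) (pt y), huv]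
    have hf := Nat.dvd_one.1 (rdeg_dvd (pt y) (one_lt_absNorm v)
      (Pool.Agent.Q5.BR.rdeg_pos (K := K) (pt y)) hN h6)
    rw [hf, pow_one] at hN
    refine ⟨hN, s, ⟨_, hmM y, hpt2 y, ?_⟩, by rw [hs]; exact h1⟩
    rw [hN]
    exact h5
  have P2 : ∀ u : HeightOneSpectrum (𝓞 M), Above u v →
      Ideal.absNorm u.asIdeal = Ideal.absNorm v.asIdeal → ∀ s, IsFrob u s → g⁻¹ * io s ∈ U →
      ∃ y ∈ Sg U g, pt y = u := by
    rintro u huv hN s ⟨Q1, hm1, hu1, hQ1⟩ hs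
    have hRm := dn_max e hm1
    have hRv := dn_above hfx huv hu1
    obtain ⟨y, hy⟩ := Pool.Agent.W352.ChAbs.exists_smul (Q1.comap (dn e)) Q (hRv.trans hQv.symm)
    have hR : Q1.comap (dn e) = Q.comap (c y) := by
      ext x
      rw [hy, Ideal.mem_comap, hc]
    have hR2 : (Q.comap (c y)).comap (up e) = Q1 := by
      rw [← hR]
      ext x
      rw [Ideal.mem_comap, Ideal.mem_comap, dn_up]
    refine ⟨y, ?_, ?_⟩
    · have h1 : ∀ x : 𝓞 (AlgebraicClosure K),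
          io s • x - x ^ Ideal.absNorm v.asIdeal ∈ Q.comap (c y) := by
        intro x
        rw [← hR, Ideal.mem_comap, map_sub, dn_smul hfx, map_pow, ← hN]
        exact hQ1 _
      have h2 : (y⁻¹ * σ * y)⁻¹ * io s ∈ U :=
        hI _ ⟨Q.comap (c y), hm y, hv y, inert_of_same (hm y) (hfr y) h1⟩
      rw [mem_Sg]
      have h3 : g⁻¹ * (y⁻¹ * g * y) = (g⁻¹ * io s) * ((y⁻¹ * σ * y)⁻¹ * io s)⁻¹ *
          (y⁻¹ * (g⁻¹ * σ) * y)⁻¹ := by group
      rw [h3]
      exact U.mul_mem (U.mul_mem hs (U.inv_mem h2)) (U.inv_mem (hU.conj_mem' _ hσg y))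
    · apply HeightOneSpectrum.ext
      rw [← hpt2 y, hR2, hu1]
  have P3 : ∀ (y h : GK K), h ∈ U ⊔ Subgroup.zpowers g → pt (y * h) = pt y := by
    intro y h hh
    apply HeightOneSpectrum.ext
    rw [← hpt2, ← hpt2]
    ext a
    have h1 : h • up e (algebraMap (𝓞 M) (𝓞 (AlgebraicClosure M)) a) =
        up e (algebraMap (𝓞 M) (𝓞 (AlgebraicClosure M)) a) := by
      apply RingOfIntegers.ext
      exact (hfx.mem h).1 hh (a : M)
    rw [Ideal.mem_comap, Ideal.mem_comap, Ideal.mem_comap, Ideal.mem_comap, Ideal.mem_comap,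
      Ideal.mem_comap, hc, hc, mul_smul, h1]
  have P4 : ∀ y ∈ Sg U g, ∀ y' ∈ Sg U g, pt y = pt y' → y⁻¹ * y' ∈ U ⊔ Subgroup.zpowers g := by
    intro y hy y' _ hyy
    have := hmM y
    have := hmM y'
    obtain ⟨s, hs⟩ := Pool.Agent.W352.ChAbs.exists_smul ((Q.comap (c y)).comap (up e))
      ((Q.comap (c y')).comap (up e)) (by rw [hpt2, hpt2, hyy])
    have hd : ∀ x : 𝓞 (AlgebraicClosure K), x ∈ Q.comap (c y) ↔
        (y⁻¹ * y' * io s) • x ∈ Q.comap (c y) := by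
      intro x
      have h1 : c y (up e (dn e x)) ∈ Q ↔ c y' (up e (s • dn e x)) ∈ Q := hs (dn e x)
      rw [up_dn, up_smul hfx, up_dn] at h1
      rw [Ideal.mem_comap, Ideal.mem_comap, h1, hc, hc, smul_smul, smul_smul]
      have h2 : y * (y⁻¹ * y' * io s) = y' * io s := by group
      rw [h2]
    obtain ⟨s', hs'⟩ := dec hfx (hpt1 y) (P1 y hy).1 (hm y) (hpt2 y) hd
    have h2 : (y⁻¹ * y' * io s)⁻¹ * io s' ∈ U := hI _ ⟨Q.comap (c y), hm y, hv y, hs'⟩
    have h3 : y⁻¹ * y' = io s' * ((y⁻¹ * y' * io s)⁻¹ * io s')⁻¹ * (io s)⁻¹ := by group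
    rw [h3]
    exact Subgroup.mul_mem _ (Subgroup.mul_mem _ (io_mem hfx s') (Subgroup.inv_mem _ (hUH h2)))
      (Subgroup.inv_mem _ (io_mem hfx s))
  -- the count
  let A : Set (HeightOneSpectrum (𝓞 M)) := {u | Above u v ∧
    Ideal.absNorm u.asIdeal = Ideal.absNorm v.asIdeal ∧ ∃ s, IsFrob u s ∧ g⁻¹ * io s ∈ U}
  let f : (Sg U g ⧸ (U ⊔ Subgroup.zpowers g).subgroupOf (Sg U g)) → A := fun q =>
    ⟨pt (q.out : Sg U g), hpt1 _, P1 _ (q.out : Sg U g).2⟩
  have hf : Function.Bijective f := by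
    constructor
    · intro q q' h
      have h1 : pt (q.out : Sg U g) = pt (q'.out : Sg U g) := congrArg Subtype.val h
      have h2 := P4 _ (q.out : Sg U g).2 _ (q'.out : Sg U g).2 h1
      rw [← QuotientGroup.out_eq' q, ← QuotientGroup.out_eq' q', QuotientGroup.eq,
        Subgroup.mem_subgroupOf]
      exact h2
    · rintro ⟨u, hu1, hu2, s, hu3, hu4⟩
      obtain ⟨y, hy, rfl⟩ := P2 u hu1 hu2 s hu3 hu4
      refine ⟨QuotientGroup.mk ⟨y, hy⟩, Subtype.ext ?_⟩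
      obtain ⟨h, hh⟩ := QuotientGroup.mk_out_eq_mul
        ((U ⊔ Subgroup.zpowers g).subgroupOf (Sg U g)) ⟨y, hy⟩
      show pt ((QuotientGroup.mk (⟨y, hy⟩ : Sg U g) :
        Sg U g ⧸ (U ⊔ Subgroup.zpowers g).subgroupOf (Sg U g)).out : Sg U g) = pt y
      rw [hh]
      exact P3 y _ (Subgroup.mem_subgroupOf.1 h.2)
  exact (Nat.card_congr (Equiv.ofBijective f hf)).symm

end loc

end Pool.Agent.H800.ME.DEU
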